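import Pool.Agent.U583.ON.Effective

/-!
# The third condition of the integral Fontaine–Mazur conjecture and cubics without coefficients

Let `F` be a number field. We consider simple objects `A`, for example irreducible `ℓ`-adic
representations of the Galois group of `F`, which are effective: `A` is a subquotient of `H^i(X)` for some
proper smooth scheme `X` over `F` (without a Tate twist; this is the third condition of the conjecture).

Let `g_0, …, g_m` be polynomials without coefficients: each of them is of one of the forms `x_i - 1`,
`x_i + x_j - x_k`, `x_i x_j - x_k`. The equation `∑ y_l g_l(x) = 1` defines a smooth affine cubic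
hypersurface `Y` over `ℤ`. We prove:

1. `A` is effective if and only if it is a subquotient of `H^n_c(Z)` for some separated scheme `Z` of
finite type over `F` and some `n`.
2. `A` is effective if and only if `A(-m)` is a subquotient of `H^j_c(Y_F)` for some `j` and for some
cubic hypersurface `Y` as above, `m + 1` being the number of its polynomials.
3. If `A` is effective, then so is `A(-1)`.

So for all number fields `F` and all `ℓ` at once, the third condition can be tested on the hypersurfaces
`Y` over `ℤ`, which form one countable list.
-/

set_option autoImplicit false

open CategoryTheory CategoryTheory.Limits AlgebraicGeometry MvPolynomial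
open Pool.Agent.Y116.UV Pool.Agent.U583.ON

universe v u

namespace Pool.Agent.Results.MP_395897_nt.EffectiveConstituents

theorem result (F : Type) [Field F] [NumberField F] {𝒜 : Type u} [Category.{v} 𝒜] [Abelian 𝒜]
    (H : Coh 𝒜 F) (hadd : IsAdditive H) (hw : WeightSpectral H) (A : 𝒜) (hA : Simple A) :
    (Effective H A ↔ ∃ (Z : Sch F) (n : ℤ), FT True Z ∧ IsSubquotient A (H.H n Z)) ∧
    (Effective H A ↔ ∃ (N m : ℕ) (g : Fin (m + 1) → MvPolynomial (Fin N) ℚ),
      (∀ l, IsElementary {1} (g l)) ∧ ∃ j : ℤ, IsSubquotient (tpow H.T m A) (H.H j (cubF F g))) ∧
    (Effective H A → Effective H (H.T.obj A)) :=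
  ⟨(effective_iff H hadd hw A hA).1, (effective_iff H hadd hw A hA).2,
    fun h => h.twist hadd hw hA⟩

end Pool.Agent.Results.MP_395897_nt.EffectiveConstituents
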