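import Pool.Agent.U367.DR.Loc
import Pool.Agent.U448.DR.TRB
import Pool.Agent.U367.DR.FINA
import Pool.Agent.U367.DR.Conv
import Pool.Agent.U937.DR.GAM
import Pool.Agent.U401.DR.PSI3
import Pool.Agent.U780.DR.GLB
import Pool.Agent.U780.DR.FINB
import Pool.Agent.U491.DR.KER
import Pool.Agent.U367.DR.BPLx
import Pool.Agent.U580.DR.EPS2

/-!
# Integral pure representations which are not de Rham: the integral refinement of the Fontaine-Mazur
# conjecture is false as stated

Let `F` be a number field and `l` a prime number. The conjecture says that for a continuous irreducible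
`ρ : Gal(F^alg/F) → GL_n(ℚ_l^alg)`, unramified at almost all places, the following are equivalent:
(1) `ρ` is de Rham with Hodge-Tate weights `≥ 0` at all places above `l`; (2) for some integer `w` the
Weil-Deligne representations of `ρ` at all places not above `l` are integral and pure of weight `w`;
(3) `ρ` is a subquotient of the étale cohomology of a proper smooth scheme.

We show that (2) does not imply (1), for EVERY number field `F` and EVERY prime number `l`: there is a
continuous character `ρ` of `Gal(F^alg/F)`, unramified at all places `v` not above `l`, such that the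
eigenvalue of each geometric Frobenius element at `v` is an algebraic integer all of whose complex
conjugates have absolute value `N(v)^(1/2)`, but which is not de Rham at any place above `l`; even
`D_dR = 0` at all these places.

The character is `ρ = ψ(cyc)⁻¹`, where `cyc` is the cyclotomic character and `ψ` a continuous character of
the `l`-adic units with `ψ(u)^(2M) = u^M` (for odd `l`: the square root of the projection of `u` to
`1 + l ℤ_l`). At a Frobenius element it is a square root of `N(v)` times a root of unity. It has the
generalised Hodge-Tate weight `1/2`. That it has no periods in `B_dR` is proved with Mathlib's ring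
`BDeRham`: leading terms with respect to a generator of `ker θ`, the element `[ε] - 1`, Ax's lemma and
Tate's normalised traces.
-/

set_option autoImplicit false

namespace Pool.Agent.Results.MP_395897_nt.PureNotDeRham

open NumberField IsDedekindDomain
open Pool.Agent.U367.DR.N

/-- For every number field `F` and every prime number `l` there is a continuous representation `ρ` of
dimension one of `Gal(F^alg/F)` over `ℚ_l^alg` which is unramified, integral and pure of weight `1` at
all places not above `l`, but for which `D_dR` is zero at all places above `l`; so it is not de Rham at any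
of these places. (There are embeddings `j` of the algebraic closure of `F` in `ℚ_l^alg`; they give all places
above `l`.) -/
theorem result (F : Type) [Field F] [NumberField F] (l : ℕ) [Fact l.Prime] :
    Nonempty (AlgebraicClosure F →+* PadicAlgCl l) ∧
    ∃ ρ : Gal(AlgebraicClosure F/F) →* GL (Fin 1) (PadicAlgCl l), Continuous ρ ∧
      (∀ v : HeightOneSpectrum (𝓞 F), (l : 𝓞 F) ∉ v.asIdeal → IsUnramifiedPure ρ v 1) ∧
      ∀ j : AlgebraicClosure F →+* PadicAlgCl l, DdR j ρ = ⊥ ∧ ¬ IsDeRham j ρ := by
  have : Algebra.IsAlgebraic ℚ (AlgebraicClosure F) :=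
    Algebra.IsAlgebraic.trans ℚ F (AlgebraicClosure F)
  refine ⟨⟨(IsAlgClosed.lift (R := ℚ) (S := AlgebraicClosure F) (M := PadicAlgCl l)).toRingHom⟩, ?_⟩
  obtain ⟨ψ, M, k, hM, hc, h1, h2⟩ := Pool.Agent.U401.DR.t_PSI3 l
  have hB := Pool.Agent.U780.DR.t_FINB Pool.Agent.U780.DR.t_GLB F l ψ M hM hc h1
  have hL : Pool.Agent.U367.DR.S_LOC := Pool.Agent.U367.DR.loc Pool.Agent.U448.DR.t_TRB
    Pool.Agent.U937.DR.t_GAM Pool.Agent.U491.DR.t_KER Pool.Agent.U580.DR.t_EPS2
    Pool.Agent.U367.DR.t_BPL
  refine ⟨Pool.Agent.U367.DR.rho F ψ, hB.1, hB.2, fun j => ?_⟩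
  obtain ⟨h3, h4⟩ := Pool.Agent.U367.DR.t_FINA hL F l ψ M k hM h1 h2 j
  have h5 : DdR j (Pool.Agent.U367.DR.rho F ψ) = ⊥ := Pool.Agent.U367.DR.DdR_eq j _ h3
  refine ⟨h5, fun h => h4 ?_⟩
  unfold IsDeRham at h
  unfold Pool.Agent.U367.DR.IsDeRham
  rw [h5, finrank_bot] at h
  rw [h3, finrank_bot]
  exact h

end Pool.Agent.Results.MP_395897_nt.PureNotDeRham
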