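import Pool.Agent.U849.PG.Core

/-!
# Integral pure `ℓ`-adic representations which do not come from geometry

Let `F` be a number field and `ℓ` an odd prime. The group `ℤ_ℓˣ` is the product of the group of
roots of unity of order dividing `ℓ - 1` and of the group of `1`-units, and `1`-units have unique
square roots. So there is a continuous character `b` of the absolute Galois group of `F`, with
values in the `1`-units, such that `b ^ 2` is the inverse of the cyclotomic character on an open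
subgroup. At the places `v` of `F` which are not above `ℓ` it is unramified, and the value `z` of `b`
on geometric Frobenius elements satisfies `z ^ 2 = ζ N(v)` with a root of unity `ζ`; so `z` is an
algebraic integer, and all its complex conjugates have absolute value `N(v) ^ (1 / 2)`.

Let `α` be any irreducible representation with finite image (for example the trivial character), and
`w` an odd natural number. Then `ρ = α ⊗ b ^ w` satisfies condition 2 of the problem with weight `w`: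
at every finite place which is not above `ℓ` the Weil–Deligne representation is integral and pure of
weight `w`, with `N_v = 0`. But `ρ` does not satisfy condition 3: it is not isomorphic to a
subquotient of any continuous representation `V` of any dimension such that, at almost all places,
the characteristic polynomial of the geometric Frobenius elements on `V` has coefficients in a
number field `E` which is independent of the place (for `V = H^i(X ⊗ F̄, ℚ̄_ℓ)`, where `X` is proper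
and smooth over `F`, these polynomials have coefficients in `ℤ`, by Deligne).

So Q1 is false as it is stated: condition 2 does not imply condition 3.

Proof. Assume that `ρ` is a subquotient of `V`. For the places `v` of `F` outside a set of density
zero, `N(v) ^ w` is not a square in `E`. If a geometric Frobenius element `g` at such a place is
contained in a certain open subgroup, then the scalar `z = b(g) ^ w = ρ(g)` is an eigenvalue of
`V(g)`, and `z ^ 2 = N(v) ^ w`; so `-z` is an eigenvalue as well. By Chebotarev's theorem there are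
such elements `g` arbitrarily close to `1`; but `det (-b(g) ^ w - V(g))` is a continuous function of
`g` with the value `(-2) ^ dim V` at `g = 1`.

On an open subgroup the square of `ρ` is the scalar `χ ^ (-w)`, where `χ` is the cyclotomic
character; `w` is odd, so `ρ` is not Hodge–Tate at any place above `ℓ`, and condition 1 fails, too.
-/

set_option autoImplicit false
set_option maxHeartbeats 400000

namespace Pool.Agent.Results.MP_395897_nt.PureNotMotivic

open NumberField IsDedekindDomain Filter Topology Matrix Polynomial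

/-- the absolute Galois group of the field `F`, with the Krull topology -/
abbrev AbsGal (F : Type) [Field F] : Type := Gal(AlgebraicClosure F/F)

section
variable {F : Type} [Field F]

/-- `g` belongs to the inertia group at the ideal `Q` of the ring of all algebraic integers. -/
def InInertia (Q : Ideal (𝓞 (AlgebraicClosure F))) (g : AbsGal F) : Prop :=
  ∀ x : 𝓞 (AlgebraicClosure F), g • x - x ∈ Q

/-- `g` is an arithmetic Frobenius element at `Q`, for a residue field with `q` elements of the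
place below `Q`. -/
def FrobeniusAt (Q : Ideal (𝓞 (AlgebraicClosure F))) (q : ℕ) (g : AbsGal F) : Prop :=
  ∀ x : 𝓞 (AlgebraicClosure F), g • x - x ^ q ∈ Q

/-- `Q` is a maximal ideal of the ring of all algebraic integers which lies above the finite
place `v` of `F`. -/
def LiesAbove [NumberField F] (v : HeightOneSpectrum (𝓞 F))
    (Q : Ideal (𝓞 (AlgebraicClosure F))) : Prop :=
  Q.IsMaximal ∧ Q.comap (algebraMap (𝓞 F) (𝓞 (AlgebraicClosure F))) = v.asIdeal

/-- `g` is a geometric Frobenius element at the finite place `v` of `F`. -/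
def GeometricFrobenius [NumberField F] (v : HeightOneSpectrum (𝓞 F)) (g : AbsGal F) : Prop :=
  ∃ Q, LiesAbove v Q ∧ FrobeniusAt Q (Ideal.absNorm v.asIdeal) g⁻¹

/-- the matrix of `g` -/
noncomputable def mat {L : Type} [Field L] {n : ℕ} (ρ : AbsGal F →* GL (Fin n) L) (g : AbsGal F) :
    Matrix (Fin n) (Fin n) L :=
  (ρ g : GL (Fin n) L)

variable [NumberField F] {ℓ : ℕ} [Fact ℓ.Prime] {n : ℕ}

/-- `ρ` is continuous, irreducible, and unramified at all but finitely many places. (`PadicAlgCl ℓ`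
is an algebraic closure of `ℚ_ℓ`, with the `ℓ`-adic topology.) -/
structure Setting (ρ : AbsGal F →* GL (Fin n) (PadicAlgCl ℓ)) : Prop where
  continuous : Continuous ρ
  pos : 0 < n
  irreducible : ∀ W : Submodule (PadicAlgCl ℓ) (Fin n → PadicAlgCl ℓ),
    (∀ g, ∀ x ∈ W, mat ρ g *ᵥ x ∈ W) → W = ⊥ ∨ W = ⊤
  unramified : ∃ B : Set (HeightOneSpectrum (𝓞 F)), B.Finite ∧
    ∀ v ∉ B, ∀ Q, LiesAbove v Q → ∀ g, InInertia Q g → ρ g = 1

/-- `z` is an algebraic integer, and all its complex conjugates have absolute value `r`. -/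
def IsWeilNumber (r : ℝ) (z : PadicAlgCl ℓ) : Prop :=
  IsIntegral ℤ z ∧ ∀ x : ℂ, aeval x (minpoly ℚ z) = 0 → ‖x‖ = r

/-- Condition 2 of the problem, with weight `w` and with `N_v = 0` at all places: at every finite
place `v` which is not above `ℓ` an open subgroup of the inertia group acts trivially (so that the
Weil–Deligne representation attached to `ρ` is the restriction of `ρ` to the Weil group, with
`N_v = 0`), and all eigenvalues of all geometric Frobenius elements are algebraic integers whose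
complex conjugates have absolute value `N(v) ^ (w / 2)`. -/
structure IntegralPure (ρ : AbsGal F →* GL (Fin n) (PadicAlgCl ℓ)) (w : ℕ) : Prop where
  monodromy : ∀ v : HeightOneSpectrum (𝓞 F), (ℓ : 𝓞 F) ∉ v.asIdeal →
    ∃ U : Subgroup (AbsGal F), IsOpen (U : Set (AbsGal F)) ∧
      ∀ Q, LiesAbove v Q → ∀ g ∈ U, InInertia Q g → ρ g = 1
  eigenvalues : ∀ v : HeightOneSpectrum (𝓞 F), (ℓ : 𝓞 F) ∉ v.asIdeal →
    ∀ g, GeometricFrobenius v g → ∀ z, (mat ρ g).charpoly.IsRoot z →
      IsWeilNumber ((Ideal.absNorm v.asIdeal : ℝ) ^ ((w : ℝ) / 2)) z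

/-- The characteristic polynomials of geometric Frobenius elements on `V` have coefficients in a
number field `E` (embedded into `ℚ̄_ℓ`), at all but finitely many places. For
`V = H^i(X ⊗ F̄, ℚ̄_ℓ)` this is true with `E = ℚ`. -/
def HasNumberFieldTraces {d : ℕ} (V : AbsGal F →* GL (Fin d) (PadicAlgCl ℓ)) : Prop :=
  ∃ (E : Type) (_ : Field E) (_ : NumberField E) (τ : E →+* PadicAlgCl ℓ)
    (B : Set (HeightOneSpectrum (𝓞 F))), B.Finite ∧ ∀ v ∉ B, ∀ g, GeometricFrobenius v g →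
      ∃ P : E[X], (mat V g).charpoly = P.map τ

/-- `ρ` is isomorphic to a subquotient of `V`: there is a linear map `f` from a subspace `B` of `V`
onto the space of `ρ`, such that `B` is stable and `f` is equivariant. -/
def IsSubquotient (ρ : AbsGal F →* GL (Fin n) (PadicAlgCl ℓ)) {d : ℕ}
    (V : AbsGal F →* GL (Fin d) (PadicAlgCl ℓ)) : Prop :=
  ∃ (B : Submodule (PadicAlgCl ℓ) (Fin d → PadicAlgCl ℓ))
    (f : B →ₗ[PadicAlgCl ℓ] (Fin n → PadicAlgCl ℓ)), Function.Surjective f ∧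
    ∀ g, ∀ x : B, ∃ h : mat V g *ᵥ (x : Fin d → PadicAlgCl ℓ) ∈ B, f ⟨_, h⟩ = mat ρ g *ᵥ f x

/-- `ρ` is as in the problem, it satisfies condition 2 with weight `w` (and `N_v = 0` everywhere),
and it is not isomorphic to a subquotient of any continuous representation whose Frobenius
polynomials have coefficients in a number field. -/
structure Counterexample (ρ : AbsGal F →* GL (Fin n) (PadicAlgCl ℓ)) (w : ℕ) : Prop where
  setting : Setting ρ
  integralPure : IntegralPure ρ w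
  notSubquotient : ∀ (d : ℕ) (V : AbsGal F →* GL (Fin d) (PadicAlgCl ℓ)), Continuous V →
    HasNumberFieldTraces V → ¬ IsSubquotient ρ V

variable (F ℓ) in
/-- the `ℓ`-adic cyclotomic character -/
noncomputable def cyc : AbsGal F →* ℤ_[ℓ]ˣ :=
  (cyclotomicCharacter (AlgebraicClosure F) ℓ).comp
    (MulSemiringAction.toRingAut Gal(AlgebraicClosure F/F) (AlgebraicClosure F))

open Pool.Agent.U849.PG

variable (F) in
/-- the square root of the inverse of the cyclotomic character -/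
noncomputable def bb (hℓ : ℓ ≠ 2) : AbsGal F →* ℤ_[ℓ]ˣ := ((sq hℓ).comp (cyc F ℓ))⁻¹

omit [NumberField F] in
theorem bb_apply (hℓ : ℓ ≠ 2) (g : AbsGal F) : bb F hℓ g = sq hℓ (cyc F ℓ g⁻¹) := by
  change ((sq hℓ) (cyc F ℓ g))⁻¹ = _
  rw [map_inv, map_inv]

theorem cyc_frob {v : HeightOneSpectrum (𝓞 F)} (hv : (ℓ : 𝓞 F) ∉ v.asIdeal)
    {Q : Ideal (𝓞 (AlgebraicClosure F))} (hQ : LiesAbove v Q) {q : ℕ} {g : AbsGal F}
    (hg : FrobeniusAt Q q g) : ((cyc F ℓ g : ℤ_[ℓ]ˣ) : ℤ_[ℓ]) = q := by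
  refine Pool.Agent.Y115.Chi.chi_frob (ℓ := ℓ) (P := Q) hQ.1.isPrime ?_ hg
  intro h
  apply hv
  rw [← hQ.2, Ideal.mem_comap, map_natCast]
  exact h

theorem bb_inertia (hℓ : ℓ ≠ 2) {v : HeightOneSpectrum (𝓞 F)} (hv : (ℓ : 𝓞 F) ∉ v.asIdeal)
    {Q : Ideal (𝓞 (AlgebraicClosure F))} (hQ : LiesAbove v Q) {g : AbsGal F}
    (hg : InInertia Q g) : bb F hℓ g = 1 := by
  have h1 : FrobeniusAt Q 1 g := by
    intro x
    rw [pow_one]
    exact hg x
  have h2 := cyc_frob hv hQ h1
  have h3 : cyc F ℓ g = 1 := Units.ext (by rw [h2, Nat.cast_one, Units.val_one])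
  rw [bb_apply, map_inv, h3, inv_one, map_one]

theorem bb_frob (hℓ : ℓ ≠ 2) {v : HeightOneSpectrum (𝓞 F)} (hv : (ℓ : 𝓞 F) ∉ v.asIdeal)
    {g : AbsGal F} (hg : GeometricFrobenius v g) :
    ((bb F hℓ g ^ (2 * (ℓ - 1)) : ℤ_[ℓ]ˣ) : ℤ_[ℓ]) = (Ideal.absNorm v.asIdeal : ℤ_[ℓ]) ^ (ℓ - 1) := by
  obtain ⟨Q, hQ, hg⟩ := hg
  rw [bb_apply, sq_pow, Units.val_pow_eq_pow_val, cyc_frob hv hQ hg]

omit [NumberField F] in
theorem continuous_cyc : Continuous (cyc F ℓ) := Pool.Agent.Y115.Chi.continuous_chi F ℓ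

omit [NumberField F] in
theorem continuous_bb (hℓ : ℓ ≠ 2) : Continuous (bb F hℓ) := by
  have h1 : (bb F hℓ : AbsGal F → ℤ_[ℓ]ˣ) = fun g => sq hℓ (cyc F ℓ g⁻¹) :=
    funext (bb_apply hℓ)
  rw [h1]
  exact (continuous_sq hℓ).comp (continuous_cyc.comp continuous_inv)

/-- the embedding of the `ℓ`-adic units -/
noncomputable def emb : ℤ_[ℓ]ˣ →* (PadicAlgCl ℓ)ˣ :=
  Units.map (((algebraMap ℚ_[ℓ] (PadicAlgCl ℓ)).comp (PadicInt.Coe.ringHom (p := ℓ))).toMonoidHom)

theorem emb_apply (u : ℤ_[ℓ]ˣ) : ((emb u : (PadicAlgCl ℓ)ˣ) : PadicAlgCl ℓ) =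
    algebraMap ℚ_[ℓ] (PadicAlgCl ℓ) ((u : ℤ_[ℓ]) : ℚ_[ℓ]) := rfl

theorem continuous_emb : Continuous (emb (ℓ := ℓ)) := by
  apply Continuous.units_map
  exact (continuous_algebraMap ℚ_[ℓ] (PadicAlgCl ℓ)).comp continuous_subtype_val

/-- the character `b ^ w` with values in `ℚ̄_ℓ` -/
noncomputable def cc (hℓ : ℓ ≠ 2) (w : ℕ) : AbsGal F →* (PadicAlgCl ℓ)ˣ :=
  ((powMonoidHom w : (PadicAlgCl ℓ)ˣ →* (PadicAlgCl ℓ)ˣ).comp emb).comp (bb F hℓ)

omit [NumberField F] in
theorem cc_apply (hℓ : ℓ ≠ 2) (w : ℕ) (g : AbsGal F) : cc hℓ w g = emb (bb F hℓ g ^ w) := by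
  change (emb (bb F hℓ g)) ^ w = _
  rw [map_pow]

omit [NumberField F] in
theorem continuous_cc (hℓ : ℓ ≠ 2) (w : ℕ) : Continuous (cc (F := F) hℓ w) :=
  (continuous_emb.comp (continuous_bb hℓ)).pow w

/-- **Condition 2 does not imply condition 3.** -/
theorem main (hℓ : ℓ ≠ 2) (α : AbsGal F →* GL (Fin n) (PadicAlgCl ℓ)) (hα : Setting α)
    (hfin : IsOpen (α.ker : Set (AbsGal F))) {w : ℕ} (hw : Odd w) :
    Counterexample (twist (cc hℓ w) α) w := by
  have hmat : ∀ g, mat (twist (cc hℓ w) α) g = ((cc hℓ w g : (PadicAlgCl ℓ)ˣ) : PadicAlgCl ℓ) •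
      mat α g := twist_apply _ _
  have hunr : ∀ v : HeightOneSpectrum (𝓞 F), (ℓ : 𝓞 F) ∉ v.asIdeal → ∀ Q, LiesAbove v Q → ∀ g,
      InInertia Q g → α g = 1 → twist (cc hℓ w) α g = 1 := by
    intro v hv Q hQ g hg h1
    apply Units.ext
    have h2 := hmat g
    have h3 : cc hℓ w g = (1 : (PadicAlgCl ℓ)ˣ) := by
      rw [cc_apply, bb_inertia hℓ hv hQ hg, one_pow, map_one]
    unfold mat at h2
    rw [h2, h3, h1, Units.val_one, one_smul, Units.val_one]
  have hker : Finite (AbsGal F ⧸ α.ker) := Subgroup.quotient_finite_of_isOpen _ hfin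
  have hfi : α.ker.FiniteIndex := Subgroup.finiteIndex_of_finite_quotient
  refine ⟨⟨continuous_twist (continuous_cc hℓ w) hα.continuous, hα.pos, ?_, ?_⟩, ⟨?_, ?_⟩, ?_⟩
  · intro W hW
    apply hα.irreducible W
    intro g x hx
    have h1 := hW g x hx
    rw [hmat, Matrix.smul_mulVec] at h1
    have h2 := W.smul_mem (((cc hℓ w g)⁻¹ : (PadicAlgCl ℓ)ˣ) : PadicAlgCl ℓ) h1
    rw [smul_smul, ← Units.val_mul, inv_mul_cancel, Units.val_one, one_smul] at h2
    exact h2
  · obtain ⟨B, hB, hBu⟩ := hα.unramified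
    refine ⟨B ∪ {v | (ℓ : 𝓞 F) ∈ v.asIdeal}, hB.union
      (Pool.Agent.W352.ChAbs.over_le ℓ (Fact.out : ℓ.Prime)).1, ?_⟩
    intro v hv Q hQ g hg
    rw [Set.mem_union, not_or] at hv
    exact hunr v hv.2 Q hQ g hg (hBu v hv.1 Q hQ g hg)
  · intro v hv
    exact ⟨α.ker, hfin, fun Q hQ g hg hgi => hunr v hv Q hQ g hgi hg⟩
  · intro v hv g hg z hz
    set N := α.ker.index with hN
    have hN0 : 0 < N := Nat.pos_of_ne_zero hfi.index_ne_zero
    set q := Ideal.absNorm v.asIdeal with hq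
    have hl1 : 0 < ℓ - 1 := Nat.sub_pos_of_lt (Fact.out : ℓ.Prime).one_lt
    have hcc : ((cc hℓ w g : (PadicAlgCl ℓ)ˣ) : PadicAlgCl ℓ) ^ (2 * (ℓ - 1) * N) =
        ((q ^ ((ℓ - 1) * w * N) : ℕ) : PadicAlgCl ℓ) := by
      have h1 := bb_frob hℓ hv hg
      have h2 : (bb F hℓ g ^ w) ^ (2 * (ℓ - 1) * N) = (bb F hℓ g ^ (2 * (ℓ - 1))) ^ (w * N) := by
        rw [← pow_mul, ← pow_mul]
        congr 1
        ring
      rw [cc_apply, ← Units.val_pow_eq_pow_val, ← map_pow, h2, emb_apply, Units.val_pow_eq_pow_val,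
        h1]
      push_cast
      rw [← pow_mul, ← mul_assoc, hq]
    have hz1 : z ^ (2 * (ℓ - 1) * N) = ((q ^ ((ℓ - 1) * w * N) : ℕ) : PadicAlgCl ℓ) := by
      refine root_pow hz ?_
      rw [hmat, _root_.smul_pow, hcc]
      congr 1
      have h1 : g ^ N ∈ α.ker := Subgroup.pow_index_mem α.ker g
      have h2 : α g ^ (2 * (ℓ - 1) * N) = 1 := by
        rw [mul_comm, pow_mul, ← map_pow, MonoidHom.mem_ker.1 h1, one_pow]
      have h3 := congrArg (Units.val) h2
      rw [Units.val_pow_eq_pow_val] at h3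
      exact h3
    have hk : 0 < 2 * (ℓ - 1) * N := by positivity
    obtain ⟨h1, h2⟩ := weil hk hz1
    refine ⟨h1, fun x hx => ?_⟩
    have h3 := h2 x hx
    have h4 : (((q : ℝ) ^ ((w : ℝ) / 2)) ^ (2 * (ℓ - 1) * N)) =
        ((q ^ ((ℓ - 1) * w * N) : ℕ) : ℝ) := by
      rw [← Real.rpow_natCast, ← Real.rpow_mul (Nat.cast_nonneg q)]
      have h5 : (w : ℝ) / 2 * ((2 * (ℓ - 1) * N : ℕ) : ℝ) = (((ℓ - 1) * w * N : ℕ) : ℝ) := by
        push_cast
        ring
      rw [h5, Real.rpow_natCast]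
      push_cast
      rfl
    rw [← h4] at h3
    exact (pow_left_inj₀ (norm_nonneg x) (by positivity) hk.ne').1 h3
  · rintro d V hV ⟨E, _, _, τ, B, hB, hBP⟩ ⟨S, f, hf, heq⟩
    -- the function
    set h : AbsGal F → PadicAlgCl ℓ := fun g =>
      (Matrix.scalar (Fin d) (-((cc hℓ w g : (PadicAlgCl ℓ)ˣ) : PadicAlgCl ℓ)) - mat V g).det with hh
    have hcont : Continuous h := by
      have h1 : Continuous fun g : AbsGal F =>
          ((cc hℓ w g : (PadicAlgCl ℓ)ˣ) : PadicAlgCl ℓ) :=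
        Units.continuous_val.comp (continuous_cc hℓ w)
      have h2 : Continuous fun g : AbsGal F => mat V g := Units.continuous_val.comp hV
      apply Continuous.matrix_det
      refine Continuous.sub ?_ h2
      simp only [Matrix.scalar_apply]
      fun_prop
    have hone : h 1 ≠ 0 := by
      have h1 : Matrix.scalar (Fin d) (-((cc hℓ w (1 : AbsGal F) : (PadicAlgCl ℓ)ˣ) : PadicAlgCl ℓ)) -
          mat V 1 = (-2 : PadicAlgCl ℓ) • (1 : Matrix (Fin d) (Fin d) (PadicAlgCl ℓ)) := by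
        unfold mat
        rw [map_one, map_one, Units.val_one, Units.val_one, map_neg, map_one, neg_smul, two_smul]
        abel
      rw [hh]
      dsimp only
      rw [h1, Matrix.det_smul, Matrix.det_one, mul_one]
      exact pow_ne_zero _ (neg_ne_zero.2 two_ne_zero)
    have hU1 : IsOpen ((U1 ℓ : Set ℤ_[ℓ]ˣ)) := by
      have h1 : (U1 ℓ : Set ℤ_[ℓ]ˣ) = (fun u : ℤ_[ℓ]ˣ => ((u : ℤ_[ℓ]) - 1)) ⁻¹' Metric.ball 0 1 := by
        ext u
        rw [SetLike.mem_coe, mem_U1, Set.mem_preimage, mem_ball_zero_iff, ← PadicInt.mem_nonunits,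
          ← IsLocalRing.mem_maximalIdeal, ← PadicInt.ker_toZMod, RingHom.mem_ker, map_sub, map_one,
          sub_eq_zero]
      rw [h1]
      exact Metric.isOpen_ball.preimage (Units.continuous_val.sub continuous_const)
    set O : Set (AbsGal F) := {g | g ∈ α.ker ∧ cyc F ℓ g ∈ U1 ℓ ∧ h g ≠ 0} with hO
    have hOo : IsOpen O :=
      hfin.inter ((hU1.preimage continuous_cyc).inter (isOpen_compl_singleton.preimage hcont))
    have hO1 : (1 : AbsGal F) ∈ O := by
      refine ⟨α.ker.one_mem, ?_, hone⟩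
      rw [map_one]
      exact (U1 ℓ).one_mem
    obtain ⟨U, hU⟩ := ProfiniteGrp.exist_openNormalSubgroup_sub_open_nhds_of_one hOo hO1
    have hUn : (U : Subgroup (AbsGal F)).Normal := U.isNormal'
    have hUo : IsOpen (((U : Subgroup (AbsGal F)) : Subgroup (AbsGal F)) : Set (AbsGal F)) :=
      U.isOpen'
    have hS : Tendsto (Pool.Agent.W401.Cheb.dens fun v : HeightOneSpectrum (𝓞 F) =>
        (v ∈ B ∨ (ℓ : 𝓞 F) ∈ v.asIdeal) ∨ ∃ x : E, x ^ 2 = (Ideal.absNorm v.asIdeal : E) ^ (w : ℤ) * 1)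
        atTop (𝓝 0) := by
      refine dens_or (dens_or (Pool.Agent.R401.Sup2.dens_fin _ hB) (Pool.Agent.R401.Sup2.dens_fin _
        (Pool.Agent.W352.ChAbs.over_le ℓ (Fact.out : ℓ.Prime)).1))
        (Pool.Agent.R401.Sup2.dens_odd E one_ne_zero ?_)
      intro hdvd
      have h1 : 2 ∣ w := by exact_mod_cast hdvd
      exact (Nat.not_even_iff_odd.2 hw) (even_iff_two_dvd.2 h1)
    obtain ⟨v, hvS, γ, ⟨Q, hQ, hQv, hγ⟩, hγU⟩ := exists_frob (U : Subgroup (AbsGal F)) hUo _ hS
    push Not at hvS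
    obtain ⟨⟨hvB, hvℓ⟩, hvE⟩ := hvS
    have hQ' : LiesAbove v Q := ⟨hQ, hQv⟩
    have hgU : γ⁻¹ ∈ (U : Subgroup (AbsGal F)) := (U : Subgroup (AbsGal F)).inv_mem hγU
    obtain ⟨hgk, hgU1, hg0⟩ := hU hgU
    have hgeo : GeometricFrobenius v γ⁻¹ := ⟨Q, hQ', by rw [inv_inv]; exact hγ⟩
    obtain ⟨P, hP⟩ := hBP v hvB γ⁻¹ hgeo
    set z : PadicAlgCl ℓ := ((cc hℓ w γ⁻¹ : (PadicAlgCl ℓ)ˣ) : PadicAlgCl ℓ) with hz
    have hz2 : z ^ 2 = τ ((Ideal.absNorm v.asIdeal : E) ^ w) := by
      have h1 : cyc F ℓ γ ∈ U1 ℓ := by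
        rw [map_inv] at hgU1
        have := (U1 ℓ).inv_mem hgU1
        rwa [inv_inv] at this
      have h2 : (bb F hℓ γ⁻¹ ^ w) ^ 2 = cyc F ℓ γ ^ w := by
        rw [bb_apply, inv_inv, ← pow_mul, mul_comm, pow_mul, sq_sq hℓ h1]
      rw [hz, cc_apply, ← Units.val_pow_eq_pow_val, ← map_pow, h2, emb_apply,
        Units.val_pow_eq_pow_val, cyc_frob hvℓ hQ' hγ]
      simp
    have hρg : mat (twist (cc hℓ w) α) γ⁻¹ = z • (1 : Matrix (Fin n) (Fin n) (PadicAlgCl ℓ)) := by
      rw [hmat]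
      congr 1
      unfold mat
      rw [MonoidHom.mem_ker.1 hgk]
      rfl
    have hroot := eval_eq_zero hα.pos hρg S f hf (heq γ⁻¹)
    rw [hP] at hroot
    have hneg := eval_neg τ P hz2 (by
      rintro ⟨x, hx⟩
      refine hvE x ?_
      rw [zpow_natCast, mul_one]
      exact hx) hroot
    apply hg0
    rw [hh]
    dsimp only
    rw [← Matrix.eval_charpoly, hP]
    exact hneg

end

/-- **Condition 2 of Q1 does not imply condition 3.** -/
theorem result {F : Type} [Field F] [NumberField F] {ℓ : ℕ} [Fact ℓ.Prime] (hℓ : ℓ ≠ 2) :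
    -- a character of weight 1
    (∃ ρ : AbsGal F →* GL (Fin 1) (PadicAlgCl ℓ), Counterexample ρ 1) ∧
    -- representations of any dimension and any odd weight
    ∀ (n : ℕ) (α : AbsGal F →* GL (Fin n) (PadicAlgCl ℓ)), Setting α →
      IsOpen (α.ker : Set (AbsGal F)) → ∀ w : ℕ, Odd w →
      ∃ ρ : AbsGal F →* GL (Fin n) (PadicAlgCl ℓ), Counterexample ρ w ∧
        -- on an open subgroup `ρ` is given by the square root of a power of the cyclotomic character
        ∃ U : Subgroup (AbsGal F), IsOpen (U : Set (AbsGal F)) ∧ ∀ g ∈ U, ∃ z : ℚ_[ℓ],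
          mat ρ g = algebraMap ℚ_[ℓ] (PadicAlgCl ℓ) z • (1 : Matrix (Fin n) (Fin n) (PadicAlgCl ℓ)) ∧
          z ^ 2 * (((cyc F ℓ g : ℤ_[ℓ]ˣ) : ℤ_[ℓ]) : ℚ_[ℓ]) ^ w = 1 := by
  constructor
  · refine ⟨_, main hℓ (1 : AbsGal F →* GL (Fin 1) (PadicAlgCl ℓ)) ⟨continuous_const, one_pos, ?_,
      ⟨∅, Set.finite_empty, fun _ _ _ _ _ _ => rfl⟩⟩ ?_ odd_one⟩
    · intro W _
      have h1 : Module.finrank (PadicAlgCl ℓ) (Fin 1 → PadicAlgCl ℓ) = 1 := by simp
      have h2 : IsSimpleOrder (Submodule (PadicAlgCl ℓ) (Fin 1 → PadicAlgCl ℓ)) :=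
        is_simple_module_of_finrank_eq_one h1
      exact eq_bot_or_eq_top W
    · rw [MonoidHom.ker_one]
      exact isOpen_univ
  · intro n α hα hfin w hw
    refine ⟨_, main hℓ α hα hfin hw, ?_⟩
    have hU1 : IsOpen ((Pool.Agent.U849.PG.U1 ℓ : Set ℤ_[ℓ]ˣ)) := by
      have h1 : (Pool.Agent.U849.PG.U1 ℓ : Set ℤ_[ℓ]ˣ) =
          (fun u : ℤ_[ℓ]ˣ => ((u : ℤ_[ℓ]) - 1)) ⁻¹' Metric.ball 0 1 := by
        ext u
        rw [SetLike.mem_coe, Pool.Agent.U849.PG.mem_U1, Set.mem_preimage, mem_ball_zero_iff,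
          ← PadicInt.mem_nonunits, ← IsLocalRing.mem_maximalIdeal, ← PadicInt.ker_toZMod,
          RingHom.mem_ker, map_sub, map_one, sub_eq_zero]
      rw [h1]
      exact Metric.isOpen_ball.preimage (Units.continuous_val.sub continuous_const)
    refine ⟨α.ker ⊓ (Pool.Agent.U849.PG.U1 ℓ).comap (cyc F ℓ), ?_, ?_⟩
    · rw [Subgroup.coe_inf]
      exact hfin.inter (hU1.preimage continuous_cyc)
    · rintro g ⟨hgk, hgU⟩
      refine ⟨(((bb F hℓ g ^ w : ℤ_[ℓ]ˣ) : ℤ_[ℓ]) : ℚ_[ℓ]), ?_, ?_⟩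
      · have h1 := Pool.Agent.U849.PG.twist_apply (cc hℓ w) α g
        unfold mat
        rw [h1, MonoidHom.mem_ker.1 hgk, cc_apply, emb_apply]
        rfl
      · have h1 : cyc F ℓ g⁻¹ ∈ Pool.Agent.U849.PG.U1 ℓ := by
          rw [map_inv]
          exact (Pool.Agent.U849.PG.U1 ℓ).inv_mem hgU
        have h2 : (bb F hℓ g ^ w) ^ 2 * cyc F ℓ g ^ w = 1 := by
          rw [bb_apply, ← pow_mul, mul_comm w 2, pow_mul, Pool.Agent.U849.PG.sq_sq hℓ h1, map_inv,
            inv_pow, inv_mul_cancel]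
        have h3 := congrArg (fun u : ℤ_[ℓ]ˣ => ((u : ℤ_[ℓ]) : ℚ_[ℓ])) h2
        simp only [Units.val_mul, Units.val_pow_eq_pow_val, Units.val_one] at h3
        push_cast at h3 ⊢
        exact h3

end Pool.Agent.Results.MP_395897_nt.PureNotMotivic
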